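import Pool.Agent.Y142.ZI.Stm
import Pool.Agent.W401.Cheb.Frob

/-!
# Density zero from successive independent extensions (`S_DENS2` from `S_CHEB`)
-/

set_option autoImplicit false

open Filter Topology Pool.Agent.Y142.ZI Pool.Agent.Y142.ZO NumberField IsDedekindDomain

namespace Pool.Agent.Y681.ZI

section count

variable {Γ : Type} [Group Γ]

/-- one step of the sieve -/
theorem step (U V : Subgroup Γ) [U.FiniteIndex] [V.FiniteIndex] (D : ℕ) (hD : V.index ≤ D)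
    (hVn : V.Normal) (E C : Set Γ) (_hE : ∀ g ∈ E, ∀ u ∈ U, g * u ∈ E)
    (hC : ∀ g ∈ C, ∀ u ∈ V, g * u ∈ C) (hex : ∀ g, ∃ h ∈ U, g * h ∈ C) :
    (((QuotientGroup.mk : Γ → Γ ⧸ (U ⊓ V)) '' (E \ C)).ncard : ℝ) /
        (Nat.card (Γ ⧸ (U ⊓ V)) : ℝ) ≤
      (1 - 1 / (D : ℝ)) *
        ((((QuotientGroup.mk : Γ → Γ ⧸ U) '' E).ncard : ℝ) / (Nat.card (Γ ⧸ U) : ℝ)) := by
  classical
  have hWU : U ⊓ V ≤ U := inf_le_left
  have hWV : U ⊓ V ≤ V := inf_le_right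
  have : Finite (Γ ⧸ U) := Subgroup.finite_quotient_of_finiteIndex
  have : Finite (Γ ⧸ (U ⊓ V)) := Subgroup.finite_quotient_of_finiteIndex
  let _ : Fintype (Γ ⧸ U) := Fintype.ofFinite _
  let _ : Fintype (Γ ⧸ (U ⊓ V)) := Fintype.ofFinite _
  set r : ℕ := (U ⊓ V).relIndex U with hr
  have hcard : Nat.card (Γ ⧸ (U ⊓ V)) = r * Nat.card (Γ ⧸ U) := by
    have := Subgroup.relIndex_mul_index hWU
    rw [Subgroup.index, Subgroup.index] at this
    exact this.symm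
  have hpos : 0 < Nat.card (Γ ⧸ (U ⊓ V)) := Nat.card_pos
  have hposU : 0 < Nat.card (Γ ⧸ U) := Nat.card_pos
  have hr0 : 0 < r := by
    rcases Nat.eq_zero_or_pos r with h | h
    · rw [h, zero_mul] at hcard; omega
    · exact h
  have hrD : r ≤ D := by
    have h1 : r = V.relIndex U := by rw [hr, Subgroup.inf_relIndex_left]
    have h2 : V.relIndex U ∣ V.index := Subgroup.relIndex_dvd_index_of_normal V U
    have h3 : V.index ≠ 0 := Subgroup.FiniteIndex.index_ne_zero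
    rw [h1]
    exact (Nat.le_of_dvd (Nat.pos_of_ne_zero h3) h2).trans hD
  -- the projection
  let e := Subgroup.quotientEquivProdOfLE hWU
  let f : Γ ⧸ (U ⊓ V) → Γ ⧸ U := fun x => (e x).1
  have hf : ∀ g : Γ, f (QuotientGroup.mk g) = QuotientGroup.mk g := fun g => rfl
  have hfib : ∀ y : Γ ⧸ U, (Finset.univ.filter fun x => f x = y).card = r := by
    intro y
    have h1 : (Finset.univ.filter fun x => f x = y).card = Nat.card {x // f x = y} := by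
      rw [Nat.card_eq_fintype_card, Fintype.card_subtype]
    rw [h1]
    have h2 : {x // f x = y} ≃ (U ⧸ (U ⊓ V).subgroupOf U) :=
      { toFun := fun x => (e x.1).2
        invFun := fun z => ⟨e.symm (y, z), by
          show (e (e.symm (y, z))).1 = y
          rw [Equiv.apply_symm_apply]⟩
        left_inv := by
          intro x
          apply Subtype.ext
          show e.symm (y, (e x.1).2) = x.1
          have hx2 : (y, (e x.1).2) = e x.1 := Prod.ext x.2.symm rfl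
          rw [hx2]
          exact e.symm_apply_apply x.1
        right_inv := by
          intro z
          show (e (e.symm (y, z))).2 = z
          rw [Equiv.apply_symm_apply] }
    rw [Nat.card_congr h2]
    rfl
  set S : Finset (Γ ⧸ (U ⊓ V)) :=
    ((QuotientGroup.mk : Γ → Γ ⧸ (U ⊓ V)) '' (E \ C)).toFinset with hS
  set TT : Finset (Γ ⧸ U) := ((QuotientGroup.mk : Γ → Γ ⧸ U) '' E).toFinset with hT
  have hSc : ((QuotientGroup.mk : Γ → Γ ⧸ (U ⊓ V)) '' (E \ C)).ncard = S.card :=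
    Set.ncard_eq_toFinset_card' _
  have hTc : ((QuotientGroup.mk : Γ → Γ ⧸ U) '' E).ncard = TT.card :=
    Set.ncard_eq_toFinset_card' _
  have himg : S.image f ⊆ TT := by
    intro y hy
    obtain ⟨x, hx, rfl⟩ := Finset.mem_image.1 hy
    rw [hS, Set.mem_toFinset] at hx
    obtain ⟨g, hg, rfl⟩ := hx
    rw [hT, Set.mem_toFinset]
    exact ⟨g, hg.1, rfl⟩
  have hle : S.card ≤ (r - 1) * (S.image f).card := by
    apply Finset.card_le_mul_card_image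
    intro y _
    obtain ⟨g, rfl⟩ := QuotientGroup.mk_surjective y
    obtain ⟨h, hh, hgh⟩ := hex g
    have hmem : (QuotientGroup.mk (g * h) : Γ ⧸ (U ⊓ V)) ∈ Finset.univ.filter
        (fun x => f x = (QuotientGroup.mk g : Γ ⧸ U)) := by
      rw [Finset.mem_filter]
      refine ⟨Finset.mem_univ _, ?_⟩
      rw [hf, QuotientGroup.eq]
      have : (g * h)⁻¹ * g = h⁻¹ := by group
      rw [this]
      exact U.inv_mem hh
    have hsub : S.filter (fun x => f x = (QuotientGroup.mk g : Γ ⧸ U)) ⊆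
        (Finset.univ.filter (fun x => f x = (QuotientGroup.mk g : Γ ⧸ U))).erase
          (QuotientGroup.mk (g * h) : Γ ⧸ (U ⊓ V)) := by
      intro x hx
      rw [Finset.mem_filter] at hx
      rw [Finset.mem_erase, Finset.mem_filter]
      refine ⟨?_, Finset.mem_univ _, hx.2⟩
      rintro rfl
      have hx1 := hx.1
      rw [hS, Set.mem_toFinset] at hx1
      obtain ⟨g', hg', heq⟩ := hx1
      rw [QuotientGroup.eq] at heq
      -- g' = (g h) * w⁻¹ with w in V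
      have h1 : g' = (g * h) * (g'⁻¹ * (g * h))⁻¹ := by group
      apply hg'.2
      rw [h1]
      exact hC _ hgh _ (V.inv_mem (hWV heq))
    calc (S.filter (fun x => f x = (QuotientGroup.mk g : Γ ⧸ U))).card
        ≤ ((Finset.univ.filter (fun x => f x = (QuotientGroup.mk g : Γ ⧸ U))).erase
          (QuotientGroup.mk (g * h) : Γ ⧸ (U ⊓ V))).card := Finset.card_le_card hsub
      _ = r - 1 := by rw [Finset.card_erase_of_mem hmem, hfib]
  have hle2 : S.card ≤ (r - 1) * TT.card :=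
    hle.trans (Nat.mul_le_mul_left _ (Finset.card_le_card himg))
  rw [hSc, hTc, hcard]
  push_cast
  have hr' : (0:ℝ) < r := by exact_mod_cast hr0
  have hU' : (0:ℝ) < (Nat.card (Γ ⧸ U) : ℝ) := by exact_mod_cast hposU
  have hle3 : (S.card : ℝ) ≤ ((r : ℝ) - 1) * TT.card := by
    have : ((r - 1 : ℕ) : ℝ) = (r : ℝ) - 1 := by
      rw [Nat.cast_sub hr0]; simp
    rw [← this]
    exact_mod_cast hle2
  have hD' : (r : ℝ) ≤ D := by exact_mod_cast hrD
  have h1 : (S.card : ℝ) / (r * Nat.card (Γ ⧸ U)) ≤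
      (1 - 1 / (r : ℝ)) * ((TT.card : ℝ) / Nat.card (Γ ⧸ U)) := by
    rw [div_le_iff₀ (by positivity)]
    calc (S.card : ℝ) ≤ ((r : ℝ) - 1) * TT.card := hle3
      _ = (1 - 1 / (r : ℝ)) * ((TT.card : ℝ) / Nat.card (Γ ⧸ U)) * (r * Nat.card (Γ ⧸ U)) := by
        field_simp
  refine h1.trans ?_
  apply mul_le_mul_of_nonneg_right _ (by positivity)
  have : 1 / (D : ℝ) ≤ 1 / (r : ℝ) := one_div_le_one_div_of_le hr' hD'
  linarith

end count

section field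

variable {K Ω : Type} [Field K] [Field Ω] [Algebra K Ω] [IsGalois K Ω]

omit [IsGalois K Ω] in
theorem mem_FS {M : IntermediateField K Ω} {u : Gal(Ω/K)} :
    u ∈ M.fixingSubgroup ↔ ∀ x ∈ M, u x = x :=
  IntermediateField.mem_fixingSubgroup_iff M u

/-- the data of the sieve after `k` steps -/
def St (Fr : ℕ → Gal(Ω/K) → Prop) (Bad : Set ℕ) (q : ℝ) (k : ℕ) : Prop :=
  ∃ (M : IntermediateField K Ω) (E : Set (Gal(Ω/K))), FiniteDimensional K M ∧ Normal K M ∧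
    (∀ g ∈ E, ∀ h, h * g * h⁻¹ ∈ E) ∧ (∀ g ∈ E, ∀ u ∈ M.fixingSubgroup, g * u ∈ E) ∧
    (∃ b : ℕ, ∀ ℓ ∈ Bad, b < ℓ → ∀ σ, Fr ℓ σ → σ ∈ E) ∧
    (((QuotientGroup.mk : Gal(Ω/K) → Gal(Ω/K) ⧸ M.fixingSubgroup) '' E).ncard : ℝ) /
      (Nat.card (Gal(Ω/K) ⧸ M.fixingSubgroup) : ℝ) ≤ q ^ k

theorem fin_index (M : IntermediateField K Ω) [FiniteDimensional K M] :
    M.fixingSubgroup.FiniteIndex := by
  refine ⟨?_⟩
  have h := IntermediateField.finrank_eq_fixingSubgroup_index (F := K) (E' := Ω) M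
  rw [← h]
  exact Module.finrank_pos.ne'

theorem norm_fix (M : IntermediateField K Ω) [Normal K M] : M.fixingSubgroup.Normal := by
  have hs : Algebra.IsSeparable K M := inferInstance
  have hgal : IsGalois K M := ⟨⟩
  exact (InfiniteGalois.normal_iff_isGalois M).2 hgal

theorem St_all {Fr : ℕ → Gal(Ω/K) → Prop} {Bad : Set ℕ} {D : ℕ}
    (H : ∀ M : IntermediateField K Ω, FiniteDimensional K M →
      ∃ (L : IntermediateField K Ω) (C : Set (Gal(Ω/K))), FiniteDimensional K L ∧ Normal K L ∧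
        Module.finrank K L ≤ D ∧ (∀ g ∈ C, ∀ h, h * g * h⁻¹ ∈ C) ∧
        (∀ g ∈ C, ∀ u : Gal(Ω/K), (∀ x ∈ L, u x = x) → g * u ∈ C) ∧
        (∀ g : Gal(Ω/K), ∃ h : Gal(Ω/K), (∀ x ∈ M, h x = x) ∧ g * h ∈ C) ∧
        ∃ b : ℕ, ∀ ℓ ∈ Bad, b < ℓ → ∀ σ, Fr ℓ σ → σ ∉ C)
    (hq : 0 ≤ 1 - 1 / (D : ℝ)) (k : ℕ) : St Fr Bad (1 - 1 / (D : ℝ)) k := by
  induction k with
  | zero =>
    have hgal : IsGalois K (⊥ : IntermediateField K Ω) := isGalois_bot
    refine ⟨⊥, Set.univ, inferInstance, hgal.to_normal, fun _ _ _ => Set.mem_univ _,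
      fun _ _ _ _ => Set.mem_univ _, ⟨0, fun _ _ _ _ _ => Set.mem_univ _⟩, ?_⟩
    have := fin_index (⊥ : IntermediateField K Ω)
    have : Finite (Gal(Ω/K) ⧸ (⊥ : IntermediateField K Ω).fixingSubgroup) :=
      Subgroup.finite_quotient_of_finiteIndex
    rw [pow_zero]
    apply div_le_one_of_le₀ _ (Nat.cast_nonneg _)
    exact_mod_cast Set.ncard_le_card _
  | succ k ih =>
    obtain ⟨M, E, hM, hMn, hE1, hE2, ⟨b, hb⟩, hE3⟩ := ih
    obtain ⟨L, C, hL, hLn, hLD, hC1, hC2, hC3, b', hb'⟩ := H M hM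
    have i1 := fin_index M
    have i2 := fin_index L
    have hnorm : L.fixingSubgroup.Normal := norm_fix L
    have hidx : L.fixingSubgroup.index ≤ D := by
      have h := IntermediateField.finrank_eq_fixingSubgroup_index (F := K) (E' := Ω) L
      rw [← h]
      exact hLD
    have hsup : (M ⊔ L).fixingSubgroup = M.fixingSubgroup ⊓ L.fixingSubgroup :=
      IntermediateField.fixingSubgroup_sup
    refine ⟨M ⊔ L, E \ C, IntermediateField.finiteDimensional_sup _ _,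
      IntermediateField.normal_sup K Ω M L, ?_, ?_,
      ⟨max b b', ?_⟩, ?_⟩
    · intro g hg h
      refine ⟨hE1 g hg.1 h, fun hc => hg.2 ?_⟩
      have := hC1 _ hc h⁻¹
      have e : h⁻¹ * (h * g * h⁻¹) * h⁻¹⁻¹ = g := by group
      rwa [e] at this
    · intro g hg u hu
      rw [hsup] at hu
      refine ⟨hE2 g hg.1 u hu.1, fun hc => hg.2 ?_⟩
      have := hC2 _ hc u⁻¹ (mem_FS.1 (L.fixingSubgroup.inv_mem hu.2))
      have e : g * u * u⁻¹ = g := by group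
      rwa [e] at this
    · intro ℓ hℓ hbℓ σ hσ
      exact ⟨hb ℓ hℓ (lt_of_le_of_lt (le_max_left _ _) hbℓ) σ hσ,
        hb' ℓ hℓ (lt_of_le_of_lt (le_max_right _ _) hbℓ) σ hσ⟩
    · have h1 := step M.fixingSubgroup L.fixingSubgroup D hidx hnorm E C hE2
        (fun g hg u hu => hC2 g hg u (mem_FS.1 hu))
        (fun g => by
          obtain ⟨h, h1, h2⟩ := hC3 g
          exact ⟨h, mem_FS.2 h1, h2⟩)
      rw [← hsup] at h1
      refine h1.trans ?_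
      rw [pow_succ, mul_comm]
      exact mul_le_mul_of_nonneg_right hE3 hq

/-- the output of the sieve -/
theorem St_out {Fr : ℕ → Gal(Ω/K) → Prop} {Bad : Set ℕ} {q : ℝ} {k : ℕ} (h : St Fr Bad q k) :
    ∃ (U : Subgroup (Gal(Ω/K))) (E : Set (Gal(Ω/K))), U.Normal ∧ IsOpen (U : Set (Gal(Ω/K))) ∧
    (∀ g ∈ E, ∀ h, h * g * h⁻¹ ∈ E) ∧ (∀ g ∈ E, ∀ u ∈ U, g * u ∈ E) ∧
    (∃ b : ℕ, ∀ ℓ ∈ Bad, b < ℓ → ∀ σ, Fr ℓ σ → σ ∈ E) ∧
    (((QuotientGroup.mk : Gal(Ω/K) → Gal(Ω/K) ⧸ U) '' E).ncard : ℝ) /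
      (Nat.card (Gal(Ω/K) ⧸ U) : ℝ) ≤ q ^ k := by
  obtain ⟨M, E, hM, hMn, h1, h2, h3, h4⟩ := h
  exact ⟨M.fixingSubgroup, E, norm_fix M, IntermediateField.fixingSubgroup_isOpen M, h1, h2, h3,
    h4⟩

end field

theorem absNorm_span_nat (ℓ : ℕ) : Ideal.absNorm (Ideal.span {(ℓ : 𝓞 ℚ)}) = ℓ := by
  rw [Ideal.absNorm_span_singleton]
  have h1 : ((ℓ : ℕ) : 𝓞 ℚ) = algebraMap ℤ (𝓞 ℚ) (ℓ : ℤ) := by simp
  rw [h1, Algebra.norm_algebraMap, RingOfIntegers.rank, Module.finrank_self, pow_one]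
  simp

/-- existence of Frobenius elements at the prime numbers -/
theorem exists_frobAt (ℓ : ℕ) (hℓ : ℓ.Prime) : ∃ σ : GK ℚ, FrobAt ℓ σ := by
  have hnorm := absNorm_span_nat ℓ
  have hprime : (Ideal.span {(ℓ : 𝓞 ℚ)}).IsPrime := by
    apply Ideal.isPrime_of_irreducible_absNorm
    rw [hnorm]
    exact hℓ
  have hne : Ideal.span {(ℓ : 𝓞 ℚ)} ≠ ⊥ := by
    intro h0
    rw [h0, Ideal.absNorm_bot] at hnorm
    exact hℓ.ne_zero hnorm.symm
  obtain ⟨σ, Q, hQ1, hQ2, hQ3⟩ := Pool.Agent.W401.Frob.exists_frob (K := ℚ) ⟨_, hprime, hne⟩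
  refine ⟨σ, Q, hQ1, ?_, ?_⟩
  · have h0 : (ℓ : 𝓞 ℚ) ∈ Ideal.span {(ℓ : 𝓞 ℚ)} := Ideal.mem_span_singleton_self _
    have h1 := hQ2.ge h0
    have h2 := Ideal.mem_comap.1 h1
    rw [map_natCast] at h2
    exact h2
  · intro x
    have h1 := hQ3 x
    have h2 : σ • x - x ^ Ideal.absNorm (Ideal.span {(ℓ : 𝓞 ℚ)}) ∈ Q := h1
    rw [hnorm] at h2
    exact h2

theorem gal_closure (K : Type) [Field K] [CharZero K] : IsGalois K (AlgebraicClosure K) :=
  inferInstance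

theorem card_le_aux (Bad P : Set ℕ) (b n : ℕ) (h : ∀ ℓ ∈ Bad, b < ℓ → ℓ ∈ P) :
    Nat.card {ℓ : ℕ // ℓ ≤ n ∧ ℓ ∈ Bad} ≤ (b + 1) + Nat.card {ℓ : ℕ // ℓ ≤ n ∧ ℓ ∈ P} := by
  have hfin : ({ℓ : ℕ | ℓ ≤ n ∧ ℓ ∈ P}).Finite := (Set.finite_Iic n).subset fun x hx => hx.1
  have h1 : {ℓ : ℕ | ℓ ≤ n ∧ ℓ ∈ Bad} ⊆ Set.Iic b ∪ {ℓ : ℕ | ℓ ≤ n ∧ ℓ ∈ P} := by
    intro x hx
    by_cases hb : b < x
    · exact Or.inr ⟨hx.1, h x hx.2 hb⟩
    · exact Or.inl (not_lt.1 hb)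
  have h2 := Set.ncard_le_ncard h1 ((Set.finite_Iic b).union hfin)
  have h3 := Set.ncard_union_le (Set.Iic b) {ℓ : ℕ | ℓ ≤ n ∧ ℓ ∈ P}
  have h4 : (Set.Iic b).ncard = b + 1 := by
    rw [← Finset.coe_Iic, Set.ncard_coe_finset, Nat.card_Iic]
  rw [h4] at h3
  exact h2.trans h3

theorem t (h : S_CHEB) : S_DENS2 := by
  intro Bad D hBad H
  -- `D` is positive
  have hD1 : 1 ≤ D := by
    obtain ⟨L, C, hL, _, hLD, _⟩ := H ⊥ inferInstance
    have := Module.finrank_pos (R := ℚ) (M := L)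
    omega
  have hDr : (1:ℝ) ≤ D := by exact_mod_cast hD1
  have hD0 : (0:ℝ) < D := by linarith
  have hinv : 1 / (D : ℝ) ≤ 1 := by rw [div_le_one hD0]; exact hDr
  have hinv0 : 0 < 1 / (D : ℝ) := by positivity
  have hq0 : 0 ≤ 1 - 1 / (D : ℝ) := by linarith
  have hq1 : 1 - 1 / (D : ℝ) < 1 := by linarith
  have key : ∀ k, @St ℚ (AlgebraicClosure ℚ) _ _ (AlgebraicClosure.instAlgebra ℚ)
      FrobAt Bad (1 - 1 / (D : ℝ)) k :=
    fun k => @St_all ℚ (AlgebraicClosure ℚ) _ _ (AlgebraicClosure.instAlgebra ℚ) (gal_closure ℚ)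
      FrobAt Bad D H hq0 k
  unfold DensityZero
  rw [tendsto_order]
  refine ⟨fun a ha => Eventually.of_forall fun n => lt_of_lt_of_le ha (by positivity), ?_⟩
  intro ε hε
  obtain ⟨k, hk⟩ := exists_pow_lt_of_lt_one hε hq1
  obtain ⟨U, E, hUn, hUo, h1, h2, ⟨b, hb⟩, h4⟩ :=
    @St_out ℚ (AlgebraicClosure ℚ) _ _ (AlgebraicClosure.instAlgebra ℚ) (gal_closure ℚ)
      FrobAt Bad _ k (key k)
  have T := h U hUn hUo E h1 h2
  have hπ : Tendsto (fun n : ℕ => (Nat.primeCounting n : ℝ)) atTop atTop :=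
    tendsto_natCast_atTop_atTop.comp Nat.tendsto_primeCounting
  have T2 : Tendsto (fun n : ℕ => ((b + 1 : ℕ) : ℝ) / (Nat.primeCounting n : ℝ)) atTop (𝓝 0) :=
    hπ.const_div_atTop _
  have T3 := T2.add T
  rw [zero_add] at T3
  have hev := (tendsto_order.1 T3).2 ε (lt_of_le_of_lt h4 hk)
  filter_upwards [hev] with n hn
  refine lt_of_le_of_lt ?_ hn
  rw [← add_div]
  apply div_le_div_of_nonneg_right _ (Nat.cast_nonneg _)
  have h5 := card_le_aux Bad {ℓ | ℓ.Prime ∧ ∃ σ ∈ E, FrobAt ℓ σ} b n (fun ℓ hℓ hbℓ => by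
    obtain ⟨σ, hσ⟩ := exists_frobAt ℓ (hBad ℓ hℓ)
    exact ⟨hBad ℓ hℓ, σ, hb ℓ hℓ hbℓ σ hσ, hσ⟩)
  exact_mod_cast h5

end Pool.Agent.Y681.ZI
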