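import Pool.Agent.Y121.ZI.Defs

/-!
Supertraces of correspondences are integers (job ZI3-TRI).
-/

open scoped TensorProduct

universe u v w

namespace Pool.Agent.Y681.ZI

open Pool.Agent.Y121.ZI

/-- The trace of an endomorphism from a pair of dual families. -/
lemma trace_eq_sum {K : Type u} [Field K] {V W : Type w} [AddCommGroup V] [Module K V]
    [FiniteDimensional K V] [AddCommGroup W] [Module K W] {n : ℕ} (a : Fin n → V) (α : Fin n → W)
    (b : W →ₗ[K] V →ₗ[K] K) (h : ∀ x, ∑ i, b (α i) x • a i = x) (g : V →ₗ[K] V) :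
    LinearMap.trace K V g = ∑ i, b (α i) (g (a i)) := by
  have hg : g = ∑ i, ((b (α i)) ∘ₗ g).smulRight (a i) := by
    refine LinearMap.ext fun x => ?_
    rw [LinearMap.sum_apply]
    exact (h (g x)).symm
  conv_lhs => rw [hg]
  rw [map_sum]
  refine Finset.sum_congr rfl fun i _ => ?_
  rw [LinearMap.trace_smulRight]
  rfl

theorem tri {K : Type u} [Field K] [CharZero K] (T : NCTheory.{u, v, w} K) (A : T.Obj)
    (f : T.H A →ₗ[K] T.H A) (hf : f ∈ T.cor A A) :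
    ∃ n : ℤ, LinearMap.trace K (T.H A) (T.par A ∘ₗ f) = (n : K) := by
  have : FiniteDimensional K (T.H A) := T.fin A
  obtain ⟨c0, hc0, d0, hd0, N, a, α, b, h1, h2, h3, -⟩ := T.cor_op A
  obtain ⟨s, hs, s1, s2, s3⟩ := T.cor_swap A (T.op A)
  obtain ⟨F, hF, hFF⟩ : ∃ F ∈ T.cor (T.ten A (T.op A)) (T.ten A (T.op A)),
      ∀ (x : T.H A) (ζ : T.H (T.op A)), F (T.kun A (T.op A) (x ⊗ₜ ζ)) =
        T.kun A (T.op A) (f x ⊗ₜ ζ) := by
    refine ⟨_, T.cor_ten A A (T.op A) (T.op A) f hf LinearMap.id (T.cor_id (T.op A)),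
      fun x ζ => ?_⟩
    simp [ext]
  have k1 := T.cor_comp _ _ _ c0 hc0 F hF
  have k2 := T.cor_comp _ _ _ _ k1 s hs
  have k3 := T.cor_comp _ _ _ _ k2 d0 hd0
  obtain ⟨n, hn⟩ := T.cor_one _ k3
  obtain ⟨he0, -, hpe⟩ := T.line
  have hcan : ∀ x y : K, x • T.e = y • T.e → x = y := fun x y h => by
    have h' : (x - y) • T.e = 0 := by rw [sub_smul, h, sub_self]
    rcases smul_eq_zero.mp h' with h'' | h''
    · exact sub_eq_zero.mp h''
    · exact absurd h'' he0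
  -- invariance of the pairing
  have binv : ∀ ζ x, b (T.par (T.op A) ζ) (T.par A x) = b ζ x := by
    intro ζ x
    have e1 := T.cor_par _ _ d0 hd0 (T.kun (T.op A) A (ζ ⊗ₜ x))
    rw [T.par_ten (T.op A) A ζ x, h2, h2, map_smul, hpe] at e1
    exact hcan _ _ e1
  have claim : ∀ (x : T.H A) (ζ : T.H (T.op A)),
      d0 (s (T.kun A (T.op A) (x ⊗ₜ ζ))) = b ζ (T.par A x) • T.e := by
    have c1 : ∀ (x : T.H A) (ζ : T.H (T.op A)), T.par A x = x →
        d0 (s (T.kun A (T.op A) (x ⊗ₜ ζ))) = b ζ (T.par A x) • T.e := by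
      intro x ζ hx
      rw [s1 x ζ hx, h2, hx]
    have c2 : ∀ (x : T.H A) (ζ : T.H (T.op A)), T.par A x = -x → T.par (T.op A) ζ = ζ →
        d0 (s (T.kun A (T.op A) (x ⊗ₜ ζ))) = b ζ (T.par A x) • T.e := by
      intro x ζ hx hζ
      have e1 := binv ζ x
      rw [hζ, hx, map_neg] at e1
      have e2 : b ζ x = 0 := by
        have e3 : (2 : K) * b ζ x = 0 := by
          rw [two_mul]
          nth_rewrite 1 [← e1]
          ring
        exact (mul_eq_zero.mp e3).resolve_left two_ne_zero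
      rw [s2 x ζ hζ, h2, hx, map_neg, e2, neg_zero]
    have c3 : ∀ (x : T.H A) (ζ : T.H (T.op A)), T.par A x = -x → T.par (T.op A) ζ = -ζ →
        d0 (s (T.kun A (T.op A) (x ⊗ₜ ζ))) = b ζ (T.par A x) • T.e := by
      intro x ζ hx hζ
      rw [s3 x ζ hx hζ, map_neg, h2, hx, map_neg, neg_smul]
    intro x ζ
    obtain ⟨x0, x1, hx0, hx1, rfl⟩ : ∃ x0 x1 : T.H A, T.par A x0 = x0 ∧ T.par A x1 = -x1 ∧
        x = x0 + x1 := by
      refine ⟨(2 : K)⁻¹ • (x + T.par A x), (2 : K)⁻¹ • (x - T.par A x), ?_, ?_, ?_⟩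
      · rw [map_smul, map_add, T.par_par A x, add_comm]
      · rw [map_smul, map_sub, T.par_par A x, ← smul_neg, neg_sub]
      · rw [← smul_add]
        have : x + T.par A x + (x - T.par A x) = (2 : K) • x := by rw [two_smul]; abel
        rw [this, smul_smul, inv_mul_cancel₀ two_ne_zero, one_smul]
    obtain ⟨ζ0, ζ1, hζ0, hζ1, rfl⟩ : ∃ ζ0 ζ1 : T.H (T.op A), T.par (T.op A) ζ0 = ζ0 ∧
        T.par (T.op A) ζ1 = -ζ1 ∧ ζ = ζ0 + ζ1 := by
      refine ⟨(2 : K)⁻¹ • (ζ + T.par _ ζ), (2 : K)⁻¹ • (ζ - T.par _ ζ), ?_, ?_, ?_⟩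
      · rw [map_smul, map_add, T.par_par (T.op A) ζ, add_comm]
      · rw [map_smul, map_sub, T.par_par (T.op A) ζ, ← smul_neg, neg_sub]
      · rw [← smul_add]
        have : ζ + T.par (T.op A) ζ + (ζ - T.par (T.op A) ζ) = (2 : K) • ζ := by
          rw [two_smul]; abel
        rw [this, smul_smul, inv_mul_cancel₀ two_ne_zero, one_smul]
    calc d0 (s (T.kun A (T.op A) ((x0 + x1) ⊗ₜ (ζ0 + ζ1))))
        = d0 (s (T.kun A (T.op A) (x0 ⊗ₜ (ζ0 + ζ1)))) +
          (d0 (s (T.kun A (T.op A) (x1 ⊗ₜ ζ0))) + d0 (s (T.kun A (T.op A) (x1 ⊗ₜ ζ1)))) := by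
          rw [TensorProduct.add_tmul, TensorProduct.tmul_add x1]
          simp only [map_add]
      _ = b (ζ0 + ζ1) (T.par A x0) • T.e +
          (b ζ0 (T.par A x1) • T.e + b ζ1 (T.par A x1) • T.e) := by
          rw [c1 x0 _ hx0, c2 x1 ζ0 hx1 hζ0, c3 x1 ζ1 hx1 hζ1]
      _ = b (ζ0 + ζ1) (T.par A (x0 + x1)) • T.e := by
          rw [← add_smul, ← add_smul]
          congr 1
          rw [map_add (T.par A), map_add (b (ζ0 + ζ1)), map_add b ζ0 ζ1, LinearMap.add_apply,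
            LinearMap.add_apply]
  refine ⟨n, ?_⟩
  have e1 : (d0 ∘ₗ s ∘ₗ F ∘ₗ c0) T.e = (n • LinearMap.id : T.H T.one →ₗ[K] T.H T.one) T.e :=
    congrArg (fun g : T.H T.one →ₗ[K] T.H T.one => g T.e) hn
  have e2 : (d0 ∘ₗ s ∘ₗ F ∘ₗ c0) T.e = (∑ i, b (α i) ((T.par A ∘ₗ f) (a i))) • T.e := by
    rw [LinearMap.comp_apply, LinearMap.comp_apply, LinearMap.comp_apply, h1, map_sum, map_sum,
      map_sum, Finset.sum_smul]
    refine Finset.sum_congr rfl fun i _ => ?_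
    rw [hFF, claim]
    rfl
  rw [trace_eq_sum a α b h3]
  apply hcan
  rw [← e2, e1, LinearMap.smul_apply, LinearMap.id_apply, Int.cast_smul_eq_zsmul]

end Pool.Agent.Y681.ZI
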